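import Pool.Agent.H681.CL.Main

set_option autoImplicit false

/-!
# MP_fa2474_nt: the recipe for clusters of shifts, for moments of every order

The shifts are `α_j = h_j + a_j`, `β_j = h_j + b_j`, `0 ≤ j ≤ n`, with arbitrary fixed `a_j ≠ b_j` and `h_0 = 0`. For almost all
`h ∈ [0, T] ^ n` the formula of Q1 (`k = n + 1`), with all the `binomial(2k, k)` terms of `Q_k` and with a power saving,
holds. The `2 ^ k` terms of `Q_k` where for all `j` in a set `J` the shifts `α_j` and `β_j` are exchanged have here the order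
of the main term.
-/

namespace Pool.Agent.Results.MP_fa2474_nt.ClustersOfShifts

open Complex MeasureTheory Filter

noncomputable section

variable {k : ℕ}

/-- The divisor function `τ_l(n)`: the sum over `d_1 d_2 ⋯ d_k = n` of `∏ j, d_j ^ l_j`. -/
def tau (l : Fin k → ℂ) (n : ℕ) : ℂ :=
  ∑ d ∈ Nat.finMulAntidiag k n, ∏ j, (d j : ℂ) ^ (l j)

/-- The Euler factor of `F(s; a, b)` at the prime `p`. -/
def localFactor (s : ℂ) (a b : Fin k → ℝ) (p : ℕ) : ℂ :=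
  (∏ j, ∏ l, (1 - (p : ℂ) ^ (-(2 * s + I * a j - I * b l)))) *
    ∑' m : ℕ, tau (fun j => I * b j) (p ^ m) * tau (fun j => -(I * a j)) (p ^ m) *
      (p : ℂ) ^ (-(2 * m * s))

/-- The arithmetic factor `F(s; a, b)`, an Euler product. -/
def arithF (s : ℂ) (a b : Fin k → ℝ) : ℂ := ∏' p : Nat.Primes, localFactor s a b p

/-- `ζ_{(a, b)}(s)`, through `F(s; a, b)` and the product of `k ^ 2` zeta functions. -/
def zetaAB (s : ℂ) (a b : Fin k → ℝ) : ℂ :=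
  arithF s a b * ∏ j, ∏ l, riemannZeta (2 * s + I * a j - I * b l)

/-- The factor `χ` of the functional equation `ζ(s) = χ(s) ζ(1 - s)`. -/
def chi (s : ℂ) : ℂ := (Real.pi : ℂ) ^ (s - 1 / 2) * Gamma ((1 - s) / 2) / Gamma (s / 2)

/-- `Z_{α, β}(t)`, where `γ = (α, β)` is indexed by `Fin k ⊕ Fin k`. -/
def Z (γ : Fin k ⊕ Fin k → ℝ) (t : ℝ) : ℂ :=
  ∏ j : Fin k, riemannZeta (1 / 2 + I * (t + γ (Sum.inl j))) *
    riemannZeta (1 / 2 - I * (t + γ (Sum.inr j)))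

/-- `G_γ(π)`, where `π(γ)` has the coordinates `γ (π i)`. -/
def G (γ : Fin k ⊕ Fin k → ℝ) (t : ℝ) (π : Equiv.Perm (Fin k ⊕ Fin k)) : ℂ :=
  (∏ j : Fin k, if (π (Sum.inl j)).isRight then chi (1 / 2 - I * t - I * γ (π (Sum.inl j))) else 1) *
  ∏ j : Fin k, if (π (Sum.inr j)).isLeft then chi (1 / 2 + I * t + I * γ (π (Sum.inr j))) else 1

/-- `Q_k(t; α, β)`: the summand depends only on the class of `π` in `S_{2k} / (S_k × S_k)`, so the
sum over the classes is the sum over all `π`, divided by `(k!) ^ 2`. -/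
def Q (γ : Fin k ⊕ Fin k → ℝ) (t : ℝ) : ℂ :=
  ((Nat.factorial k : ℂ) ^ 2)⁻¹ * ∑ π : Equiv.Perm (Fin k ⊕ Fin k),
    G γ t π * zetaAB (1 / 2) (fun j => γ (π (Sum.inl j))) (fun j => γ (π (Sum.inr j)))

/-- The clusters: `α_0 = a_0`, `β_0 = b_0`, and `α_j = h_j + a_j`, `β_j = h_j + b_j` for `1 ≤ j ≤ n`. -/
def clusters {n : ℕ} (a b : Fin (n + 1) → ℝ) (h : Fin n → ℝ) : Fin (n + 1) ⊕ Fin (n + 1) → ℝ :=
  Sum.elim (Fin.cons (a 0) fun j => h j + a j.succ) (Fin.cons (b 0) fun j => h j + b j.succ)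

open Pool.Agent.TH612.CF in
lemma zetaAB_eq (a b : Fin k → ℝ) :
    zetaAB (1 / 2) a b = zab (fun j => (a j : ℂ)) (fun j => (b j : ℂ)) := by
  unfold zetaAB zab arithF FH
  congr 1
  · refine tprod_congr fun p => ?_
    unfold localFactor lh lt
    congr 1
    · refine Finset.prod_congr rfl fun j _ => Finset.prod_congr rfl fun l _ => ?_
      congr 2
      ring
    · refine tsum_congr fun m => ?_
      have hp : ((p : ℕ) : ℂ) ≠ 0 := by exact_mod_cast p.2.ne_zero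
      have e : ((p : ℕ) : ℂ) ^ (-(2 * (m : ℂ) * (1 / 2))) = (((p : ℕ) : ℂ) ^ m)⁻¹ := by
        rw [← Complex.cpow_natCast, ← Complex.cpow_neg]
        congr 1; ring
      rw [e]
      rfl
  · refine Finset.prod_congr rfl fun j _ => Finset.prod_congr rfl fun l _ => ?_
    congr 1
    ring

open Pool.Agent.TH612.CF in
lemma Q_eq (γ : Fin k ⊕ Fin k → ℝ) (t : ℝ) :
    Q γ t = ((Nat.factorial k : ℂ) ^ 2)⁻¹ * Qs t (fun i => (γ i : ℂ)) := by
  unfold Q Qs Rt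
  congr 1
  refine Finset.sum_congr rfl fun π _ => ?_
  rw [zetaAB_eq]
  rfl

open Pool.Agent.TH612.CF in
lemma Z_eq (γ : Fin k ⊕ Fin k → ℝ) (t : ℝ) : Z γ t = Zg γ t := rfl

lemma clusters_eq {n : ℕ} (a b : Fin (n + 1) → ℝ) (h : Fin n → ℝ) :
    clusters a b h = Pool.Agent.T2H54.CL.gk a b h := by
  funext i
  rcases i with i | i
  · refine Fin.cases ?_ (fun j => ?_) i
    · simp [clusters, Pool.Agent.T2H54.CL.gk, Pool.Agent.T2H54.CL.hc]
    · simp [clusters, Pool.Agent.T2H54.CL.gk, Pool.Agent.T2H54.CL.hc]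
  · refine Fin.cases ?_ (fun j => ?_) i
    · simp [clusters, Pool.Agent.T2H54.CL.gk, Pool.Agent.T2H54.CL.hc]
    · simp [clusters, Pool.Agent.T2H54.CL.gk, Pool.Agent.T2H54.CL.hc]

/-- **The recipe for clusters of shifts.** For every `n ≥ 1` there is `δ > 0` such that for all fixed offsets `a_j ≠ b_j`,
`0 ≤ j ≤ n`, and all large `T` the following holds for all centres `h ∈ [0, T] ^ n` outside of a set of
measure at most `T ^ (n - δ)`: for all `0 ≤ S ≤ T`, with `γ = clusters a b h`,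
`|∫_0^S (Z_γ(t) - Q_(n+1)(t; γ)) dt| ≤ T ^ (1 - δ)`. -/
theorem result (n : ℕ) (hn : 1 ≤ n) :
    (∀ γ : Fin (n + 1) ⊕ Fin (n + 1) → ℝ, Continuous fun t : ℝ => Z γ t - Q γ t) ∧
    ∃ δ : ℝ, 0 < δ ∧ ∀ a b : Fin (n + 1) → ℝ, (∀ j, a j ≠ b j) → ∃ T₀ : ℝ, ∀ T : ℝ, T₀ ≤ T →
      volume {h : Fin n → ℝ | (∀ i, 0 ≤ h i ∧ h i ≤ T) ∧ ∃ S : ℝ, 0 ≤ S ∧ S ≤ T ∧
          T * T ^ (-δ) < ‖∫ t in (0 : ℝ)..S, (Z (clusters a b h) t - Q (clusters a b h) t)‖} ≤
        ENNReal.ofReal (T ^ n * T ^ (-δ)) := by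
  constructor
  · intro γ
    have e : (fun t : ℝ => Z γ t - Q γ t) = fun t : ℝ => Pool.Agent.TH612.CF.Zg γ t -
        ((Nat.factorial (n + 1) : ℂ) ^ 2)⁻¹ * Pool.Agent.TH612.CF.Qs t (fun i => (γ i : ℂ)) := by
      funext t
      rw [Q_eq, Z_eq]
    rw [e]
    exact (Pool.Agent.TH612.GS.Zg_cont γ).sub
      (continuous_const.mul (Pool.Agent.TH612.GS.Qs_cont γ))
  · obtain ⟨δ, hδ, h⟩ := Pool.Agent.H681.CL.mainV n hn
    refine ⟨δ, hδ, fun a b hab => ?_⟩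
    obtain ⟨T₀, hT₀⟩ := h a b hab
    refine ⟨T₀, fun T hT => ?_⟩
    simp only [Q_eq, Z_eq, clusters_eq]
    exact hT₀ T hT

end

end Pool.Agent.Results.MP_fa2474_nt.ClustersOfShifts
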