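import Pool.Agent.H383.SB.MainTP

set_option autoImplicit false

/-!
# MP_fa2474_nt: the recipe for one fixed pair of shifts and almost all other shifts, for moments of
every order

The shifts `α_0 = a` and `β_0 = b`, `a ≠ b`, are arbitrary fixed numbers, and the other `2n` shifts,
`n = k - 1`, are almost arbitrary in a box of side `H`, where `H` may be as small as
`T ^ (1/3 - η)`. For these shift vectors the full conjecture with all the `binomial(2k, k)` terms of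
`Q_k` holds with a power saving. Two of the terms, the one without swaps and the one where only `a` and
`b` are exchanged, are of the order of the main term.
-/

namespace Pool.Agent.Results.MP_fa2474_nt.OneFixedPair

open Complex MeasureTheory Filter

noncomputable section

variable {k : ℕ}

/-- The divisor function `τ_l(n)`: the sum over `d_1 d_2 ⋯ d_k = n` of `∏ j, d_j ^ l_j`. -/
def tau (l : Fin k → ℂ) (n : ℕ) : ℂ :=
  ∑ d ∈ Nat.finMulAntidiag k n, ∏ j, (d j : ℂ) ^ (l j)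

/-- The Euler factor of `F(s; a, b)` at the prime `p`. -/
def localFactor (s : ℂ) (a b : Fin k → ℝ) (p : ℕ) : ℂ :=
  (∏ j, ∏ l, (1 - (p : ℂ) ^ (-(2 * s + I * a j - I * b l)))) *
    ∑' m : ℕ, tau (fun j => I * b j) (p ^ m) * tau (fun j => -(I * a j)) (p ^ m) *
      (p : ℂ) ^ (-(2 * m * s))

/-- The arithmetic factor `F(s; a, b)`, an Euler product. -/
def arithF (s : ℂ) (a b : Fin k → ℝ) : ℂ := ∏' p : Nat.Primes, localFactor s a b p

/-- `ζ_{(a, b)}(s)`, through `F(s; a, b)` and the product of `k ^ 2` zeta functions. -/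
def zetaAB (s : ℂ) (a b : Fin k → ℝ) : ℂ :=
  arithF s a b * ∏ j, ∏ l, riemannZeta (2 * s + I * a j - I * b l)

/-- The factor `χ` of the functional equation `ζ(s) = χ(s) ζ(1 - s)`. -/
def chi (s : ℂ) : ℂ := (Real.pi : ℂ) ^ (s - 1 / 2) * Gamma ((1 - s) / 2) / Gamma (s / 2)

/-- `Z_{α, β}(t)`, where `γ = (α, β)` is indexed by `Fin k ⊕ Fin k`. -/
def Z (γ : Fin k ⊕ Fin k → ℝ) (t : ℝ) : ℂ :=
  ∏ j : Fin k, riemannZeta (1 / 2 + I * (t + γ (Sum.inl j))) *
    riemannZeta (1 / 2 - I * (t + γ (Sum.inr j)))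

/-- `G_γ(π)`, where `π(γ)` has the coordinates `γ (π i)`. -/
def G (γ : Fin k ⊕ Fin k → ℝ) (t : ℝ) (π : Equiv.Perm (Fin k ⊕ Fin k)) : ℂ :=
  (∏ j : Fin k, if (π (Sum.inl j)).isRight then chi (1 / 2 - I * t - I * γ (π (Sum.inl j))) else 1) *
  ∏ j : Fin k, if (π (Sum.inr j)).isLeft then chi (1 / 2 + I * t + I * γ (π (Sum.inr j))) else 1

/-- `Q_k(t; α, β)`: the summand depends only on the class of `π` in `S_{2k} / (S_k × S_k)`, so the
sum over the classes is the sum over all `π`, divided by `(k!) ^ 2`. -/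
def Q (γ : Fin k ⊕ Fin k → ℝ) (t : ℝ) : ℂ :=
  ((Nat.factorial k : ℂ) ^ 2)⁻¹ * ∑ π : Equiv.Perm (Fin k ⊕ Fin k),
    G γ t π * zetaAB (1 / 2) (fun j => γ (π (Sum.inl j))) (fun j => γ (π (Sum.inr j)))

open Pool.Agent.TH612.CF in
lemma zetaAB_eq (a b : Fin k → ℝ) :
    zetaAB (1 / 2) a b = zab (fun j => (a j : ℂ)) (fun j => (b j : ℂ)) := by
  unfold zetaAB zab arithF FH
  congr 1
  · refine tprod_congr fun p => ?_
    unfold localFactor lh lt
    congr 1
    · refine Finset.prod_congr rfl fun j _ => Finset.prod_congr rfl fun l _ => ?_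
      congr 2
      ring
    · refine tsum_congr fun m => ?_
      have hp : ((p : ℕ) : ℂ) ≠ 0 := by exact_mod_cast p.2.ne_zero
      have e : ((p : ℕ) : ℂ) ^ (-(2 * (m : ℂ) * (1 / 2))) = (((p : ℕ) : ℂ) ^ m)⁻¹ := by
        rw [← Complex.cpow_natCast, ← Complex.cpow_neg]
        congr 1; ring
      rw [e]
      rfl
  · refine Finset.prod_congr rfl fun j _ => Finset.prod_congr rfl fun l _ => ?_
    congr 1
    ring

open Pool.Agent.TH612.CF in
lemma Q_eq (γ : Fin k ⊕ Fin k → ℝ) (t : ℝ) :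
    Q γ t = ((Nat.factorial k : ℂ) ^ 2)⁻¹ * Qs t (fun i => (γ i : ℂ)) := by
  unfold Q Qs Rt
  congr 1
  refine Finset.sum_congr rfl fun π _ => ?_
  rw [zetaAB_eq]
  rfl

open Pool.Agent.TH612.CF in
lemma Z_eq (γ : Fin k ⊕ Fin k → ℝ) (t : ℝ) : Z γ t = Zg γ t := rfl

/-- The shift vector with `α_0 = a`, `β_0 = b` and the other `2n` shifts `θ`: `α_(j+1) = θ (inl j)`,
`β_(j+1) = θ (inr j)`. -/
def shifts {n : ℕ} (a b : ℝ) (θ : Fin n ⊕ Fin n → ℝ) : Fin (n + 1) ⊕ Fin (n + 1) → ℝ :=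
  Sum.elim (Fin.cons a fun j => θ (Sum.inl j)) (Fin.cons b fun j => θ (Sum.inr j))

/-- **The recipe with a fixed pair of shifts, for almost all other shifts.** For every `n ≥ 1` there are
`η, δ > 0` such that for all real `a ≠ b` and all large `T` (depending on `a` and `b`), all
`T ^ (1/3 - η) ≤ H ≤ T`, and all boxes of side `H` in `[0, T] ^ (2n)` with the corner `U`: the
`θ = (α_1, …, α_n, β_1, …, β_n)` in the box for which, with `γ = (a, α_1, …, α_n, b, β_1, …, β_n)`,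
`|∫_0^S (Z_γ(t) - Q_(n+1)(t; γ)) dt| > T ^ (1 - δ)` for some `0 ≤ S ≤ T` form a set of measure at most
`H ^ (2n) T ^ (-δ)`. -/
theorem result (n : ℕ) (hn : 1 ≤ n) :
    (∀ γ : Fin (n + 1) ⊕ Fin (n + 1) → ℝ, Continuous fun t : ℝ => Z γ t - Q γ t) ∧
    ∃ η δ : ℝ, 0 < η ∧ 0 < δ ∧ ∀ a b : ℝ, a ≠ b → ∃ T₀ : ℝ,
      ∀ (T H : ℝ) (U : Fin n ⊕ Fin n → ℝ), T₀ ≤ T → T ^ (1 / 3 - η) ≤ H → H ≤ T →
      (∀ i, 0 ≤ U i ∧ U i + H ≤ T) →
      volume {θ : Fin n ⊕ Fin n → ℝ | (∀ i, U i ≤ θ i ∧ θ i ≤ U i + H) ∧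
        ∃ S : ℝ, 0 ≤ S ∧ S ≤ T ∧
          T ^ (1 - δ) < ‖∫ t in (0:ℝ)..S, (Z (shifts a b θ) t - Q (shifts a b θ) t)‖} ≤
        ENNReal.ofReal (H ^ (2 * n) * T ^ (-δ)) := by
  constructor
  · intro γ
    have e : (fun t : ℝ => Z γ t - Q γ t) = fun t : ℝ => Pool.Agent.TH612.CF.Zg γ t -
        ((Nat.factorial (n + 1) : ℂ) ^ 2)⁻¹ *
          Pool.Agent.TH612.CF.Qs t (fun i => (γ i : ℂ)) := by
      funext t
      rw [Q_eq, Z_eq]
    rw [e]
    exact (Pool.Agent.TH612.GS.Zg_cont γ).sub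
      (continuous_const.mul (Pool.Agent.TH612.GS.Qs_cont γ))
  · obtain ⟨η, δ, hη, hδ, h⟩ := Pool.Agent.H383.SB.mainTP n hn
    refine ⟨η, δ, hη, hδ, fun a b hab => ?_⟩
    obtain ⟨T₀, h⟩ := h a b hab
    refine ⟨max T₀ 1, fun T H U hT hH hHT hU => ?_⟩
    have hT1 : 1 ≤ T := (le_max_right _ _).trans hT
    have h1 := h T H U ((le_max_left _ _).trans hT) hH hHT hU
    have e : T * T ^ (-δ) = T ^ (1 - δ) := by
      rw [sub_eq_add_neg, Real.rpow_add (by linarith), Real.rpow_one]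
    rw [e] at h1
    simp only [Q_eq, Z_eq]
    exact h1

end

end Pool.Agent.Results.MP_fa2474_nt.OneFixedPair
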