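import Pool.Agent.H469.F4.ORD4

set_option autoImplicit false

/-!
# MP_fa2474_nt: shifted moments of total order at most four, relative to every Dirichlet polynomial

Unconditionally, for every `n` there are `θ > 0` and constants `c, C > 0` such that for all large `T`, all real exponents
`k_1, …, k_n ≥ 0` with `∑ k_j ≤ 2` and all real shifts `|α_j| ≤ T/2` the shifted moment `∫ ∏_j |ζ(1/2 + i(t + α_j))|^(2 k_j)` over
`[T, 2T]` lies between `c` and `C` times `T ∏_{j,l} |ζ(1 + 1/log T + i(α_j - α_l))|^(k_j k_l)`; and there is ONE Dirichlet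
polynomial `E` of length `T ^ (1/8)`, with mean square of this exact order, such that for ALL Dirichlet polynomials `B` of length
`T ^ θ`

`c ∫ |E B|² ≤ ∫ ∏_j |ζ(1/2 + i(t + α_j))|^(2 k_j) |B|² ≤ C ∫ |E B|²`.

This is the range of the fourth moment: the total order `2 ∑ k_j` is at most `4`.
-/

namespace Pool.Agent.Results.MP_fa2474_nt.TotalOrderFourEveryPolynomial

open Filter Topology MeasureTheory Complex

noncomputable section

/-- the Dirichlet polynomial with coefficients `b_1, …, b_N` on the critical line -/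
def B (N : ℕ) (b : ℕ → ℂ) (t : ℝ) : ℂ := ∑ n ∈ Finset.Icc 1 N, b n * (n : ℂ) ^ (-(1 / 2 + t * I))

/-- the product of shifted values of zeta with real exponents -/
def Z {n : ℕ} (k α : Fin n → ℝ) (t : ℝ) : ℝ := ∏ j, ‖riemannZeta (1 / 2 + (t + α j : ℝ) * I)‖ ^ (2 * k j)

/-- the predicted order -/
def order {n : ℕ} (T : ℝ) (k α : Fin n → ℝ) : ℝ :=
  ∏ j, ∏ l, ‖riemannZeta (1 + 1 / Real.log T + (α j - α l : ℝ) * I)‖ ^ (k j * k l)

/-- restriction of the coefficients -/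
def res (N : ℕ) (b : ℕ → ℂ) (n : ℕ) : ℂ := if 1 ≤ n ∧ n ≤ N then b n else 0

lemma res_supp (N : ℕ) (b : ℕ → ℂ) (n : ℕ) (h : res N b n ≠ 0) : 1 ≤ n ∧ n ≤ N := by
  by_contra hc
  exact h (by unfold res; rw [if_neg hc])

lemma B_res (N : ℕ) (b : ℕ → ℂ) (t : ℝ) : Pool.Agent.Q97.UM.dp N (res N b) t = B N b t := by
  unfold Pool.Agent.Q97.UM.dp B
  apply Finset.sum_congr rfl
  intro n hn
  rw [Finset.mem_Icc] at hn
  unfold res
  rw [if_pos hn]

lemma B_one (t : ℝ) : B 1 (fun _ => 1) t = 1 := by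
  unfold B
  simp

lemma order_nonneg {n : ℕ} (T : ℝ) (k α : Fin n → ℝ) : 0 ≤ order T k α := by
  unfold order
  positivity

/-- **shifted moments of total order at most four, relative to every Dirichlet polynomial** -/
theorem result : ∀ n : ℕ, ∃ θ c C T₀ : ℝ, 0 < θ ∧ 0 < c ∧ ∀ T : ℝ, T₀ ≤ T → ∀ k α : Fin n → ℝ,
    (∀ j, 0 ≤ k j) → ∑ j, k j ≤ 2 → (∀ j, |α j| ≤ T / 2) →
    (c * (T * order T k α) ≤ ∫ t in T..(2 * T), Z k α t) ∧
    (∫ t in T..(2 * T), Z k α t ≤ C * (T * order T k α)) ∧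
    ∃ (M : ℕ) (e : ℕ → ℂ), (M : ℝ) ≤ T ^ (1 / 8 : ℝ) ∧
      (c * (T * order T k α) ≤ ∫ t in T..(2 * T), ‖B M e t‖ ^ 2) ∧
      (∫ t in T..(2 * T), ‖B M e t‖ ^ 2 ≤ C * (T * order T k α)) ∧
      ∀ N : ℕ, (N : ℝ) ≤ T ^ θ → ∀ b : ℕ → ℂ,
        (c * ∫ t in T..(2 * T), ‖B M e t * B N b t‖ ^ 2) ≤ ∫ t in T..(2 * T), Z k α t * ‖B N b t‖ ^ 2 ∧
        ∫ t in T..(2 * T), Z k α t * ‖B N b t‖ ^ 2 ≤ C * ∫ t in T..(2 * T), ‖B M e t * B N b t‖ ^ 2 := by
  intro n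
  obtain ⟨κ, δ₀, hκ, hδ₀, h⟩ := Pool.Agent.H469.F4.ord4 n
  obtain ⟨hδ1, h26, θ, c₀, C₀, hθ, hθ8, hc, hC, hev⟩ := h δ₀ hδ₀ le_rfl
  obtain ⟨T₁, hT₁⟩ := eventually_atTop.1 (hev.and (eventually_ge_atTop 16))
  refine ⟨θ, min (min (c₀ / 2) (c₀ * c₀)) 1, max (2 * C₀) (C₀ * C₀), T₁, hθ, by positivity, fun T hT k α hk hk1 hα => ?_⟩
  obtain ⟨hT', hT16⟩ := hT₁ T hT
  obtain ⟨g1, g2, gs, gM, g3⟩ := hT' k α hk hk1 hα
  obtain ⟨M, hM⟩ : ∃ M : ℕ, M = Pool.Agent.H469.F4.eM δ₀ κ T := ⟨_, rfl⟩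
  obtain ⟨e, he⟩ : ∃ e : ℕ → ℂ, e = Pool.Agent.H469.F4.eo δ₀ κ T k α := ⟨_, rfl⟩
  rw [← hM, ← he] at g1 g2
  rw [← hM, ← he] at gs g3
  rw [← hM] at gM
  have hord' : Pool.Agent.Results.MP_fa2474_nt.OrderForEveryPolynomial.order T k α = order T k α := rfl
  rw [hord'] at g1 g2
  have hT0 : 0 < T := by linarith
  have hT1 : 1 ≤ T := by linarith
  have hord0 := order_nonneg T k α
  have hX : 0 ≤ T * order T k α := mul_nonneg hT0.le hord0
  have hMV := Pool.Agent.Q84.UM.t_MVL T hT16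
  have hprod : ∀ (N : ℕ) (b : ℕ → ℂ) (t : ℝ), B M e t * B N b t =
      Pool.Agent.Q97.UM.dp (M * N) (Pool.Agent.Q97.UM.cv e (res N b)) t := by
    intro N b t
    rw [← B_res N b t, ← Pool.Agent.Q84.UM.t_DPM.1 M N e (res N b) t]
    · rfl
    · intro m hm
      by_contra hc
      have := (gs m hc).2
      omega
    · intro m hm
      by_contra hc
      have := (res_supp N b m hc).2
      omega
  have hlenN : ∀ N : ℕ, (N : ℝ) ≤ T ^ θ → ((M * N : ℕ) : ℝ) ≤ T ^ (1 / 4 : ℝ) := by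
    intro N hN
    have h1 : (N : ℝ) ≤ T ^ (1 / 8 : ℝ) := hN.trans (Real.rpow_le_rpow_of_exponent_le hT1 hθ8)
    push_cast
    calc (M : ℝ) * N ≤ T ^ (1 / 8 : ℝ) * T ^ (1 / 8 : ℝ) := mul_le_mul gM h1 (Nat.cast_nonneg _) (by positivity)
      _ = T ^ (1 / 4 : ℝ) := by rw [← Real.rpow_add hT0]; norm_num
  have hMV2 : ∀ N : ℕ, (N : ℝ) ≤ T ^ θ → ∀ b : ℕ → ℂ,
      T / 2 * Pool.Agent.Q97.UM.N2 (M * N) (Pool.Agent.Q97.UM.cv e (res N b)) ≤ ∫ t in T..(2 * T), ‖B M e t * B N b t‖ ^ 2 ∧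
      ∫ t in T..(2 * T), ‖B M e t * B N b t‖ ^ 2 ≤ 2 * T * Pool.Agent.Q97.UM.N2 (M * N) (Pool.Agent.Q97.UM.cv e (res N b)) := by
    intro N hN b
    have h1 := hMV (M * N) (hlenN N hN) (Pool.Agent.Q97.UM.cv e (res N b))
    simpa only [hprod] using h1
  have hZ : ∀ (N : ℕ) (b : ℕ → ℂ), (fun t => Z k α t * ‖B N b t‖ ^ 2) =
      fun t => Pool.Agent.H469.F4.zpr k α t * ‖Pool.Agent.Q97.UM.dp N (res N b) t‖ ^ 2 := by
    intro N b
    funext t
    rw [B_res]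
    rfl
  have hmain : ∀ N : ℕ, (N : ℝ) ≤ T ^ θ → ∀ b : ℕ → ℂ,
      (c₀ / 2 * ∫ t in T..(2 * T), ‖B M e t * B N b t‖ ^ 2) ≤ ∫ t in T..(2 * T), Z k α t * ‖B N b t‖ ^ 2 ∧
      ∫ t in T..(2 * T), Z k α t * ‖B N b t‖ ^ 2 ≤ 2 * C₀ * ∫ t in T..(2 * T), ‖B M e t * B N b t‖ ^ 2 := by
    intro N hN b
    obtain ⟨h1, h2⟩ := g3 N hN (res N b) (res_supp N b)
    obtain ⟨h3, h4⟩ := hMV2 N hN b
    rw [hZ N b]
    refine ⟨le_trans ?_ h1, h2.trans ?_⟩
    · calc c₀ / 2 * ∫ t in T..(2 * T), ‖B M e t * B N b t‖ ^ 2 ≤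
          c₀ / 2 * (2 * T * Pool.Agent.Q97.UM.N2 (M * N) (Pool.Agent.Q97.UM.cv e (res N b))) :=
            mul_le_mul_of_nonneg_left h4 (by positivity)
        _ = _ := by ring
    · calc C₀ * T * Pool.Agent.Q97.UM.N2 (M * N) (Pool.Agent.Q97.UM.cv e (res N b)) =
          2 * C₀ * (T / 2 * Pool.Agent.Q97.UM.N2 (M * N) (Pool.Agent.Q97.UM.cv e (res N b))) := by ring
        _ ≤ _ := mul_le_mul_of_nonneg_left h3 (by positivity)
  have hMV1 := hMV M (gM.trans (Real.rpow_le_rpow_of_exponent_le hT1 (by norm_num))) e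
  have hBe : ∀ t, B M e t = Pool.Agent.Q97.UM.dp M e t := fun t => rfl
  simp only [← hBe] at hMV1
  have hone : ((1 : ℕ) : ℝ) ≤ T ^ θ := by
    rw [Nat.cast_one]
    exact Real.one_le_rpow hT1 hθ.le
  have h1 := hmain 1 hone (fun _ => 1)
  simp only [B_one, mul_one, norm_one, one_pow] at h1
  -- the mean square of `E`
  have hE1 : c₀ / 2 * (T * order T k α) ≤ ∫ t in T..(2 * T), ‖B M e t‖ ^ 2 := by
    refine le_trans ?_ hMV1.1
    calc c₀ / 2 * (T * order T k α) = T / 2 * (c₀ * order T k α) := by ring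
      _ ≤ _ := mul_le_mul_of_nonneg_left g1 (by positivity)
  have hE2 : ∫ t in T..(2 * T), ‖B M e t‖ ^ 2 ≤ 2 * C₀ * (T * order T k α) := by
    refine hMV1.2.trans ?_
    calc 2 * T * Pool.Agent.Q97.UM.N2 M e ≤ 2 * T * (C₀ * order T k α) := mul_le_mul_of_nonneg_left g2 (by positivity)
      _ = _ := by ring
  obtain ⟨t1, t2⟩ := hMV2 1 hone (fun _ => 1)
  have hg3 := g3 1 hone (res 1 (fun _ => 1)) (res_supp 1 _)
  have hZ1 := hZ 1 (fun _ => 1)
  simp only [B_one, norm_one, one_pow, mul_one] at hZ1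
  have hcv : Pool.Agent.Q97.UM.N2 (M * 1) (Pool.Agent.Q97.UM.cv e (res 1 (fun _ => 1))) = Pool.Agent.Q97.UM.N2 M e := by
    rw [mul_one]
    unfold Pool.Agent.Q97.UM.N2
    refine Finset.sum_congr rfl fun m hm => ?_
    have hm1 := (Finset.mem_Icc.1 hm).1
    congr 3
    unfold Pool.Agent.Q97.UM.cv
    rw [Finset.sum_eq_single (m, 1)]
    · simp [res]
    · intro p hp hne
      have h2 : p.2 ≠ 1 := by
        intro h2
        apply hne
        have h3 := (Nat.mem_divisorsAntidiagonal.1 hp).1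
        rw [h2, mul_one] at h3
        ext
        · exact h3
        · exact h2
      unfold res
      have h4 : ¬ (1 ≤ p.2 ∧ p.2 ≤ 1) := by omega
      rw [if_neg h4, mul_zero]
    · intro hne
      exact absurd (Nat.mem_divisorsAntidiagonal.2 ⟨mul_one m, by omega⟩) hne
  rw [hcv, ← hZ1] at hg3
  refine ⟨?_, ?_, M, e, gM, ?_, ?_, fun N hN b => ⟨?_, ?_⟩⟩
  · refine le_trans ?_ hg3.1
    calc min (min (c₀ / 2) (c₀ * c₀)) 1 * (T * order T k α) ≤ c₀ * c₀ * (T * order T k α) :=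
          mul_le_mul_of_nonneg_right ((min_le_left _ _).trans (min_le_right _ _)) hX
      _ = c₀ * T * (c₀ * order T k α) := by ring
      _ ≤ _ := mul_le_mul_of_nonneg_left g1 (by positivity)
  · refine hg3.2.trans ?_
    calc C₀ * T * Pool.Agent.Q97.UM.N2 M e ≤ C₀ * T * (C₀ * order T k α) := mul_le_mul_of_nonneg_left g2 (by positivity)
      _ = C₀ * C₀ * (T * order T k α) := by ring
      _ ≤ _ := mul_le_mul_of_nonneg_right (le_max_right _ _) hX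
  · exact (mul_le_mul_of_nonneg_right ((min_le_left _ _).trans (min_le_left _ _)) hX).trans hE1
  · exact hE2.trans (mul_le_mul_of_nonneg_right (le_max_left _ _) hX)
  · refine le_trans ?_ (hmain N hN b).1
    apply mul_le_mul_of_nonneg_right ((min_le_left _ _).trans (min_le_left _ _))
    exact intervalIntegral.integral_nonneg (by linarith) fun t _ => by positivity
  · refine (hmain N hN b).2.trans ?_
    apply mul_le_mul_of_nonneg_right (le_max_left _ _)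
    exact intervalIntegral.integral_nonneg (by linarith) fun t _ => by positivity

end

end Pool.Agent.Results.MP_fa2474_nt.TotalOrderFourEveryPolynomial
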